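import Mathlib

/-! # The Shilov boundary of a compact set for the functions holomorphic near the set -/

set_option autoImplicit false

open Topology Filter Metric Set

namespace Pool.Agent.K4H45.SB

variable {V : Type*} [NormedAddCommGroup V] [NormedSpace ℂ V]

/-- `Γ` is a closed boundary of `M` for the functions holomorphic near `M`. -/
def Bd (M Γ : Set V) : Prop :=
  IsClosed Γ ∧ Γ ⊆ M ∧ ∀ (Ω : Set V) (F : V → ℂ), IsOpen Ω → M ⊆ Ω → DifferentiableOn ℂ F Ω →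
    ∀ x ∈ M, ∃ y ∈ Γ, ‖F x‖ ≤ ‖F y‖

/-- The intersection of the closed boundaries. -/
def Sh (M : Set V) : Set V := {x | x ∈ M ∧ ∀ Γ, Bd M Γ → x ∈ Γ}

theorem bd_self {M : Set V} (hM : IsCompact M) : Bd M M :=
  ⟨hM.isClosed, subset_rfl, fun _ _ _ _ _ x hx => ⟨x, hx, le_rfl⟩⟩

/-- intersections of chains of closed boundaries -/
theorem bd_chain {M : Set V} (hM : IsCompact M) (c : Set (Set V)) (hc : ∀ Γ ∈ c, Bd M Γ)
    (hch : IsChain (· ⊆ ·) c) (hne : c.Nonempty) : Bd M (⋂₀ c) := by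
  refine ⟨isClosed_sInter fun Γ h => (hc Γ h).1, ?_, ?_⟩
  · obtain ⟨Γ, hΓ⟩ := hne
    exact (sInter_subset_of_mem hΓ).trans (hc Γ hΓ).2.1
  · intro Ω F hΩ hMΩ hF x hx
    have hFc : ContinuousOn F M := hF.continuousOn.mono hMΩ
    have hcl : ∀ Γ ∈ c, IsClosed {y | y ∈ Γ ∧ ‖F x‖ ≤ ‖F y‖} := by
      intro Γ hΓ
      have h1 : IsClosed Γ := (hc Γ hΓ).1
      have h2 : ContinuousOn (fun y => ‖F y‖) Γ := (hFc.mono (hc Γ hΓ).2.1).norm
      have h3 := h2.preimage_isClosed_of_isClosed h1 (isClosed_Ici (a := ‖F x‖))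
      have h4 : {y | y ∈ Γ ∧ ‖F x‖ ≤ ‖F y‖} = Γ ∩ (fun y => ‖F y‖) ⁻¹' Ici ‖F x‖ := by
        ext y; simp
      rw [h4]; exact h3
    have : Nonempty c := hne.to_subtype
    have key := IsCompact.nonempty_iInter_of_directed_nonempty_isCompact_isClosed
      (fun Γ : c => {y | y ∈ Γ.1 ∧ ‖F x‖ ≤ ‖F y‖}) ?_ ?_ ?_ ?_
    · obtain ⟨y, hy⟩ := key
      rw [mem_iInter] at hy
      obtain ⟨Γ, hΓ⟩ := hne
      exact ⟨y, fun Γ' hΓ' => (hy ⟨Γ', hΓ'⟩).1, (hy ⟨Γ, hΓ⟩).2⟩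
    · intro Γ Γ'
      rcases hch.total Γ.2 Γ'.2 with h | h
      · exact ⟨Γ, fun y hy => hy, fun y hy => ⟨h hy.1, hy.2⟩⟩
      · exact ⟨Γ', fun y hy => ⟨h hy.1, hy.2⟩, fun y hy => hy⟩
    · intro Γ
      obtain ⟨y, hy, h⟩ := (hc Γ.1 Γ.2).2.2 Ω F hΩ hMΩ hF x hx
      exact ⟨y, hy, h⟩
    · intro Γ
      exact hM.of_isClosed_subset (hcl Γ.1 Γ.2) (fun y hy => (hc Γ.1 Γ.2).2.1 hy.1)
    · intro Γ
      exact hcl Γ.1 Γ.2

/-- If `Γ` is not a boundary then some function peaks outside of `Γ`. -/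
theorem not_bd {M Γ : Set V} (hM : IsCompact M) (hMne : M.Nonempty) (hΓc : IsClosed Γ) (hΓ : Γ ⊆ M)
    (h : ¬ Bd M Γ) : ∃ (Ω : Set V) (F : V → ℂ) (x : V) (q : ℝ), IsOpen Ω ∧ M ⊆ Ω ∧
      DifferentiableOn ℂ F Ω ∧ x ∈ M ∧ F x = 1 ∧ (∀ y ∈ M, ‖F y‖ ≤ 1) ∧ 0 ≤ q ∧ q < 1 ∧
      ∀ y ∈ Γ, ‖F y‖ ≤ q := by
  rcases Γ.eq_empty_or_nonempty with he | hne
  · obtain ⟨x, hx⟩ := hMne
    refine ⟨univ, fun _ => 1, x, 0, isOpen_univ, subset_univ _, differentiableOn_const _, hx, rfl,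
      fun y _ => by simp, le_rfl, one_pos, fun y hy => ?_⟩
    rw [he] at hy
    exact absurd hy (notMem_empty y)
  · unfold Bd at h
    push Not at h
    obtain ⟨Ω, F, hΩ, hMΩ, hF, x₁, hx₁, hlt⟩ := h hΓc hΓ
    have hFc : ContinuousOn (fun y => ‖F y‖) M := (hF.continuousOn.mono hMΩ).norm
    obtain ⟨x, hx, hmax⟩ := hM.exists_isMaxOn hMne hFc
    have hΓk : IsCompact Γ := hM.of_isClosed_subset hΓc hΓ
    obtain ⟨y₀, hy₀, hmax'⟩ := hΓk.exists_isMaxOn hne (hFc.mono hΓ)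
    have h1 : ‖F y₀‖ < ‖F x‖ := (hlt y₀ hy₀).trans_le (hmax hx₁)
    have hx0 : 0 < ‖F x‖ := (norm_nonneg _).trans_lt h1
    refine ⟨Ω, fun y => F y / F x, x, ‖F y₀‖ / ‖F x‖, hΩ, hMΩ,
      by simpa only [div_eq_mul_inv] using hF.mul_const (F x)⁻¹, hx,
      div_self (norm_pos_iff.1 hx0), fun y hy => ?_, by positivity, ?_, fun y hy => ?_⟩
    · rw [norm_div, div_le_one hx0]
      exact hmax hy
    · rw [div_lt_one hx0]; exact h1
    · rw [norm_div]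
      exact div_le_div_of_nonneg_right (hmax' hy) hx0.le

/-- Local form of the definition. -/
theorem sh_peak {M : Set V} (hM : IsCompact M) {x₀ : V} (hx₀ : x₀ ∈ Sh M) {ε : ℝ} (hε : 0 < ε) :
    ∃ (Ω : Set V) (F : V → ℂ) (x : V) (q : ℝ), IsOpen Ω ∧ M ⊆ Ω ∧
      DifferentiableOn ℂ F Ω ∧ x ∈ M ∧ F x = 1 ∧ (∀ y ∈ M, ‖F y‖ ≤ 1) ∧ 0 ≤ q ∧ q < 1 ∧
      ∀ y ∈ M, y ∉ ball x₀ ε → ‖F y‖ ≤ q := by
  have h1 : ¬ Bd M (M \ ball x₀ ε) := fun h => (hx₀.2 _ h).2 (mem_ball_self hε)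
  obtain ⟨Ω, F, x, q, a1, a2, a3, a4, a5, a6, a7, a8, a9⟩ := not_bd hM ⟨x₀, hx₀.1⟩
    (hM.isClosed.sdiff isOpen_ball) sdiff_subset h1
  exact ⟨Ω, F, x, q, a1, a2, a3, a4, a5, a6, a7, a8, fun y hy hy' => a9 y ⟨hy, hy'⟩⟩

/-- Shilov's theorem: the intersection of the closed boundaries is a closed boundary. -/
theorem sh_bd {ι : Type*} [Fintype ι] {M : Set (ι → ℂ)} (hM : IsCompact M) (hMne : M.Nonempty) :
    Bd M (Sh M) := by
  classical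
  obtain ⟨Γ₀, -, hmin⟩ := zorn_superset_nonempty {Γ | Bd M Γ} (fun c hc hch hne =>
    ⟨⋂₀ c, bd_chain hM c hc hch hne, fun Γ hΓ => sInter_subset_of_mem hΓ⟩) M (bd_self hM)
  have hΓ₀ : Bd M Γ₀ := hmin.prop
  have hsub : ∀ Γ, Bd M Γ → Γ₀ ⊆ Γ := by
    intro Γ hΓ x₀ hx₀
    by_contra hcon
    obtain ⟨ε, hε, hball⟩ := Metric.isOpen_iff.1 hΓ.1.isOpen_compl x₀ hcon
    -- the smaller set is not a boundary
    have h1 : ¬ Bd M (Γ₀ \ ball x₀ ε) := by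
      intro h
      have h2 := hmin.le_of_le h sdiff_subset hx₀
      exact h2.2 (mem_ball_self hε)
    obtain ⟨Ω, G, xs, q, hΩ, hMΩ, hG, hxs, hGx, hG1, hq0, hq1, hGq⟩ := not_bd hM hMne
      (hΓ₀.1.sdiff isOpen_ball) (sdiff_subset.trans hΓ₀.2.1) h1
    -- a bound for the coordinates
    obtain ⟨K, hK⟩ : ∃ K : ℝ, ∀ y ∈ M, ‖y - x₀‖ ≤ K := by
      have h2 : ContinuousOn (fun y => ‖y - x₀‖) M := (by fun_prop : Continuous _).continuousOn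
      obtain ⟨K, hK⟩ := hM.bddAbove_image h2
      exact ⟨K, fun y hy => hK ⟨y, hy, rfl⟩⟩
    obtain ⟨k, hk⟩ : ∃ k : ℕ, q ^ k * (|K| / ε) < 1 := by
      have h2 : Tendsto (fun k : ℕ => q ^ k * (|K| / ε)) atTop (𝓝 (0 * (|K| / ε))) :=
        (tendsto_pow_atTop_nhds_zero_of_lt_one hq0 hq1).mul_const _
      rw [zero_mul] at h2
      exact (h2.eventually (gt_mem_nhds one_pos)).exists
    -- the functions
    set H : ι → (ι → ℂ) → ℂ := fun i y => G y ^ k * ((y i - x₀ i) / (ε : ℂ)) with hH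
    have hHd : ∀ i, DifferentiableOn ℂ (H i) Ω := by
      intro i
      apply DifferentiableOn.mul (hG.pow k)
      simp only [div_eq_mul_inv]
      exact (((differentiable_apply (𝕜 := ℂ) i).sub_const _).mul_const _).differentiableOn
    have hnorm : ∀ i y, ‖H i y‖ = ‖G y‖ ^ k * (‖y i - x₀ i‖ / ε) := by
      intro i y
      rw [hH]
      simp only [norm_mul, norm_pow, norm_div, Complex.norm_real, Real.norm_of_nonneg hε.le]
    have hHΓ₀ : ∀ i, ∀ y ∈ Γ₀, ‖H i y‖ < 1 := by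
      intro i y hy
      rw [hnorm]
      have hyM := hΓ₀.2.1 hy
      have hyi : ‖y i - x₀ i‖ ≤ ‖y - x₀‖ := norm_le_pi_norm (y - x₀) i
      by_cases hb : y ∈ ball x₀ ε
      · rw [mem_ball, dist_eq_norm] at hb
        have h2 : ‖G y‖ ^ k ≤ 1 := pow_le_one₀ (norm_nonneg _) (hG1 y hyM)
        have h3 : ‖y i - x₀ i‖ / ε < 1 := by
          rw [div_lt_one hε]; exact hyi.trans_lt hb
        calc ‖G y‖ ^ k * (‖y i - x₀ i‖ / ε) ≤ 1 * (‖y i - x₀ i‖ / ε) := by gcongr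
          _ < 1 := by rw [one_mul]; exact h3
      · have h2 : ‖G y‖ ^ k ≤ q ^ k := pow_le_pow_left₀ (norm_nonneg _) (hGq y ⟨hy, hb⟩) k
        have h3 : ‖y i - x₀ i‖ / ε ≤ |K| / ε := by
          gcongr
          exact hyi.trans ((hK y hyM).trans (le_abs_self K))
        calc ‖G y‖ ^ k * (‖y i - x₀ i‖ / ε) ≤ q ^ k * (|K| / ε) :=
              mul_le_mul h2 h3 (by positivity) (by positivity)
          _ < 1 := hk
    have hHM : ∀ i, ∀ y ∈ M, ‖H i y‖ < 1 := by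
      intro i y hy
      obtain ⟨u, hu, h2⟩ := hΓ₀.2.2 Ω (H i) hΩ hMΩ (hHd i) y hy
      exact h2.trans_lt (hHΓ₀ i u hu)
    obtain ⟨y, hy, h2⟩ := hΓ.2.2 Ω G hΩ hMΩ hG xs hxs
    rw [hGx, norm_one] at h2
    have hyM := hΓ.2.1 hy
    have h3 : ‖G y‖ = 1 := le_antisymm (hG1 y hyM) h2
    apply hball ?_ hy
    rw [mem_ball, dist_pi_lt_iff hε]
    intro i
    have h4 := hHM i y hyM
    rw [hnorm, h3, one_pow, one_mul, div_lt_one hε] at h4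
    rw [dist_eq_norm]; exact h4
  have heq : Sh M = Γ₀ := by
    apply Subset.antisymm
    · intro x hx
      exact hx.2 _ hΓ₀
    · intro x hx
      exact ⟨hΓ₀.2.1 hx, fun Γ hΓ => hsub Γ hΓ hx⟩
  rw [heq]
  exact hΓ₀

end Pool.Agent.K4H45.SB
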