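import Mathlib
import Pool.Agent.W820.BM.Asm7
import Pool.Agent.K4H45.SB.Shilov

/-! # The connectedness locus with marked critical points -/

set_option autoImplicit false

open Topology Filter Metric Set Polynomial MeasureTheory
open Pool.Agent.H713R3.ZA Pool.Agent.W820.BM

namespace Pool.Agent.K4H45.SB

/-- the connectedness locus (marked critical points, with sum `s`) -/
def MC (a : ℂ) (n : ℕ) (s : ℂ) : Set (PE n) :=
  {x | ∑ i : Fin n, x (some i) = s ∧ ∀ i, x (some i) ∈ KJ (fam a n x)}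

theorem crit_cont' (a : ℂ) (n N : ℕ) (i : Fin n) :
    Continuous (fun x : PE n => (fx a n x)^[N] (x (some i))) := by
  have h1 := (contDiff_fx a n N).continuous
  revert h1
  generalize hHe : (fun q : PE n × ℂ => (fx a n q.1)^[N] q.2) = H
  intro h1
  have h2 : Continuous (fun x : PE n => ((x, x (some i)) : PE n × ℂ)) :=
    continuous_id.prodMk (continuous_apply _)
  have h3 : (fun x : PE n => (fx a n x)^[N] (x (some i))) =
      fun x => H ((fun x : PE n => ((x, x (some i)) : PE n × ℂ)) x) := by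
    funext x; rw [← hHe]
  rw [h3]
  exact h1.comp h2

/-- the engine, with all inputs supplied -/
theorem eng {a : ℂ} (ha : a ≠ 0) {n : ℕ} (hn : 1 ≤ n) {c₀ : ℝ} (hc₀ : 0 ≤ c₀) :
    ∃ B : ℝ, 0 < B ∧ ∃ R₂ : ℝ, ∀ R : ℝ, R₂ ≤ R → ∀ xT : PE n, ‖∑ i : Fin n, xT (some i)‖ ≤ c₀ →
      (∀ i, xT (some i) ∈ KJ (fam a n xT)) → ‖xT‖ < B ∧
      (∀ i l, ‖(fx a n xT)^[l] (xT (some i))‖ < R) ∧
      ∀ (N : ℕ) (h : PE n → ℂ) (V θ : ℝ), DifferentiableOn ℂ h (OmN a n N B R) → h xT = 0 →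
      0 ≤ V → 0 < θ → (∀ x ∈ OmN a n N B R,
        ∑ i : Fin n, x (some i) = ∑ i : Fin n, xT (some i) → (h x).re ≤ V) →
      ∀ (k : ℕ) (τ : Fin n → Option (Fin k)), (∀ j, ∃ i, τ i = some j) → ∀ N₀ : ℕ,
      ∃ (x : PE n) (p : Fin k → ℕ) (z : Fin k → ℂ) (r : Fin k → Fin n),
        x ∈ OmN a n N B R ∧ ∑ i : Fin n, x (some i) = ∑ i : Fin n, xT (some i) ∧
        -θ ≤ (h x).re ∧ Concl a n k τ N₀ x p z r :=
  engine Pool.Agent.W174.BM.tc Pool.Agent.W397.BM.sh
    Pool.Agent.W806.BM.main Pool.Agent.W346.BM.ap2 Pool.Agent.W346.BM.att ha hn hc₀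

theorem mc_bdd {a : ℂ} (ha : a ≠ 0) {n : ℕ} (hn : 1 ≤ n) (s : ℂ) :
    ∃ B R : ℝ, ∀ x ∈ MC a n s, ‖x‖ < B ∧ ∀ i l, ‖(fx a n x)^[l] (x (some i))‖ < R := by
  obtain ⟨B, -, R₂, h⟩ := eng ha hn (norm_nonneg s)
  refine ⟨B, R₂, fun x hx => ?_⟩
  obtain ⟨h1, h2, -⟩ := h R₂ le_rfl x (by rw [hx.1]) hx.2
  exact ⟨h1, h2⟩

/-- bounded orbits do not escape -/
theorem mem_KJ_of_bdd {a : ℂ} {n : ℕ} {x : PE n} {z : ℂ} {R : ℝ}
    (h : ∀ l : ℕ, 1 ≤ l → ‖(fx a n x)^[l] z‖ ≤ R) : z ∈ KJ (fam a n x) := by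
  intro ht
  have ht' : Tendsto (fun k : ℕ => ‖(fx a n x)^[k] z‖) atTop atTop := ht
  obtain ⟨k, hk1, hk2⟩ := ((ht'.eventually (eventually_gt_atTop R)).and
    (eventually_ge_atTop 1)).exists
  linarith [h k hk2]

theorem mc_compact {a : ℂ} (ha : a ≠ 0) {n : ℕ} (hn : 1 ≤ n) (s : ℂ) : IsCompact (MC a n s) := by
  obtain ⟨B, R, h⟩ := mc_bdd ha hn s
  have h1 : MC a n s = ({x : PE n | ∑ i : Fin n, x (some i) = s} ∩ closedBall (0 : PE n) B) ∩
      ⋂ i : Fin n, ⋂ l : ℕ, {x : PE n | ‖(fx a n x)^[l] (x (some i))‖ ≤ R} := by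
    ext x
    simp only [mem_inter_iff, mem_iInter, mem_ofPred_eq, mem_closedBall, dist_zero_right]
    constructor
    · intro hx
      exact ⟨⟨hx.1, (h x hx).1.le⟩, fun i l => ((h x hx).2 i l).le⟩
    · rintro ⟨⟨h1, -⟩, h3⟩
      exact ⟨h1, fun i => mem_KJ_of_bdd fun l _ => h3 i l⟩
  rw [h1]
  apply Metric.isCompact_of_isClosed_isBounded
  · apply IsClosed.inter
    · apply IsClosed.inter
      · exact isClosed_eq (by fun_prop) continuous_const
      · exact isClosed_closedBall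
    · apply isClosed_iInter; intro i
      apply isClosed_iInter; intro l
      exact isClosed_le (crit_cont' a n l i).norm continuous_const
  · exact (isBounded_closedBall.subset inter_subset_right).subset inter_subset_left

/-- the parameter of the polynomial `a (z - c) ^ (n + 1) + c` -/
theorem mc_nonempty (a : ℂ) {n : ℕ} (hn : 1 ≤ n) (s : ℂ) : (MC a n s).Nonempty := by
  obtain ⟨c, hc⟩ : ∃ c : ℂ, (n : ℂ) * c = s := by
    have : (n : ℂ) ≠ 0 := by exact_mod_cast (by omega : n ≠ 0)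
    exact ⟨s / n, mul_div_cancel₀ _ this⟩
  set x : PE n := fun o => o.elim (a * (0 - c) ^ (n + 1) + c) (fun _ => c) with hx
  have hf : fam a n x = C a * (X - C c) ^ (n + 1) + C c := by
    apply Pool.Agent.W806.BM.poly_eq (z := 0)
    · rw [derivative_fam, derivative_add, derivative_C, add_zero, derivative_C_mul,
        derivative_X_sub_C_pow]
      unfold dfam
      have h1 : (∏ i : Fin n, (X - C (x (some i))) : ℂ[X]) = (X - C c) ^ n := by
        simp only [hx, Option.elim_some, Finset.prod_const, Finset.card_univ, Fintype.card_fin]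
      have h2 : (C (a * ((n : ℂ) + 1)) : ℂ[X]) = C a * (C (n : ℂ) + 1) := by
        rw [C_mul, C_add, C_1]
      have h3 : (C (((n + 1 : ℕ) : ℂ)) : ℂ[X]) = C (n : ℂ) + 1 := by
        rw [Nat.cast_add, Nat.cast_one, C_add, C_1]
      rw [h1, h2, h3, Nat.add_sub_cancel]
      ring
    · have h1 := Pool.Agent.W806.BM.fam_zero a n x
      unfold fx at h1
      rw [h1, hx]
      simp
  refine ⟨x, ?_, fun i => ?_⟩
  · simp only [hx, Option.elim_some, Finset.sum_const, Finset.card_univ, Fintype.card_fin,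
      nsmul_eq_mul]
    exact hc
  · have h1 : fx a n x c = c := by
      show (fam a n x).eval c = c
      rw [hf]; simp
    have h2 : ∀ l, (fx a n x)^[l] c = c := fun l => Function.iterate_fixed h1 l
    apply mem_KJ_of_bdd (R := ‖c‖)
    intro l _
    show ‖(fx a n x)^[l] c‖ ≤ ‖c‖
    rw [h2]

/-- Near the connectedness locus at a finite level. -/
theorem near_N {a : ℂ} {n : ℕ} {s : ℂ} {Ω : Set (PE n)} (hΩ : IsOpen Ω) (hM : MC a n s ⊆ Ω)
    (B' R' : ℝ) : ∃ N : ℕ, ∀ x : PE n, ∑ i : Fin n, x (some i) = s → ‖x‖ ≤ B' →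
      (∀ i : Fin n, ∀ j : ℕ, 1 ≤ j → j ≤ N → ‖(fx a n x)^[j] (x (some i))‖ ≤ R') → x ∈ Ω := by
  by_contra hcon
  push Not at hcon
  set S : ℕ → Set (PE n) := fun N => (({x : PE n | ∑ i : Fin n, x (some i) = s} ∩
    closedBall (0 : PE n) B') ∩ ⋂ i : Fin n, ⋂ j : ℕ, ⋂ _ : 1 ≤ j ∧ j ≤ N,
      {x : PE n | ‖(fx a n x)^[j] (x (some i))‖ ≤ R'}) ∩ Ωᶜ with hS
  have hcl : ∀ N, IsClosed (S N) := by
    intro N
    apply IsClosed.inter
    · apply IsClosed.inter
      · apply IsClosed.inter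
        · exact isClosed_eq (by fun_prop) continuous_const
        · exact isClosed_closedBall
      · apply isClosed_iInter; intro i
        apply isClosed_iInter; intro j
        apply isClosed_iInter; intro _
        exact isClosed_le (crit_cont' a n j i).norm continuous_const
    · exact hΩ.isClosed_compl
  have hbd : ∀ N, S N ⊆ closedBall (0 : PE n) B' := fun N x hx => hx.1.1.2
  have key := IsCompact.nonempty_iInter_of_sequence_nonempty_isCompact_isClosed S ?_ ?_ ?_ hcl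
  · obtain ⟨x, hx⟩ := key
    rw [mem_iInter] at hx
    have h1 : x ∈ MC a n s := by
      refine ⟨(hx 0).1.1.1, fun i => ?_⟩
      apply mem_KJ_of_bdd (R := R')
      intro l hl
      have h2 := (hx l).1.2
      simp only [mem_iInter] at h2
      exact h2 i l ⟨hl, le_rfl⟩
    exact (hx 0).2 (hM h1)
  · intro N x hx
    refine ⟨⟨hx.1.1, ?_⟩, hx.2⟩
    have h2 := hx.1.2
    simp only [mem_iInter] at h2 ⊢
    exact fun i j hj => h2 i j ⟨hj.1, hj.2.trans (Nat.le_succ N)⟩
  · intro N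
    obtain ⟨x, h1, h2, h3, h4⟩ := hcon N
    refine ⟨x, ⟨⟨h1, by simpa using h2⟩, ?_⟩, h4⟩
    simp only [mem_iInter]
    exact fun i j hj => h3 i j hj.1 hj.2
  · exact (isCompact_closedBall (0 : PE n) B').of_isClosed_subset (hcl 0) (hbd 0)

/-- the shift -/
noncomputable def sh (n : ℕ) (s : ℂ) (x : PE n) : ℂ := (s - ∑ i : Fin n, x (some i)) / n

/-- conjugation by a translation, to the sum `s` of the critical points -/
noncomputable def pj (a : ℂ) (n : ℕ) (s : ℂ) (x : PE n) : PE n := fun o =>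
  o.elim (fx a n x (-sh n s x) + sh n s x) (fun i => x (some i) + sh n s x)

theorem pj_sum {a : ℂ} {n : ℕ} (hn : 1 ≤ n) (s : ℂ) (x : PE n) :
    ∑ i : Fin n, pj a n s x (some i) = s := by
  have h0 : (n : ℂ) ≠ 0 := by exact_mod_cast (by omega : n ≠ 0)
  simp only [pj, Option.elim_some, Finset.sum_add_distrib, Finset.sum_const, Finset.card_univ,
    Fintype.card_fin, nsmul_eq_mul, sh]
  rw [mul_div_cancel₀ _ h0]
  ring

theorem pj_id {a : ℂ} {n : ℕ} {s : ℂ} {x : PE n} (hx : ∑ i : Fin n, x (some i) = s) :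
    pj a n s x = x := by
  have h1 : sh n s x = 0 := by unfold sh; rw [hx, sub_self, zero_div]
  funext o
  cases o with
  | none =>
    simp only [pj, Option.elim_none, h1, neg_zero, add_zero]
    exact Pool.Agent.W806.BM.fam_zero a n x
  | some i => simp only [pj, Option.elim_some, h1, add_zero]

theorem pj_conj (a : ℂ) (n : ℕ) (s : ℂ) (x : PE n) (z : ℂ) :
    fx a n (pj a n s x) (z + sh n s x) = fx a n x z + sh n s x := by
  set c := sh n s x with hc
  have h : (fam a n (pj a n s x)).comp (X + C c) = fam a n x + C c := by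
    apply Pool.Agent.W806.BM.poly_eq (z := -c)
    · rw [derivative_comp, derivative_fam, derivative_add, derivative_X, derivative_C, add_zero,
        one_mul, derivative_add, derivative_fam, derivative_C, add_zero]
      unfold dfam
      rw [mul_comp, C_comp, prod_comp]
      congr 1
      refine Finset.prod_congr rfl fun i _ => ?_
      simp only [sub_comp, X_comp, add_comp, C_comp, pj, Option.elim_some, C_add, ← hc]
      ring
    · rw [eval_comp, eval_add, eval_add, eval_X, eval_C, neg_add_cancel]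
      have h1 := Pool.Agent.W806.BM.fam_zero a n (pj a n s x)
      unfold fx at h1
      rw [h1]
      rfl
  have h1 := congrArg (eval z) h
  rw [eval_comp, eval_add, eval_X, eval_C, eval_add, eval_C] at h1
  exact h1

theorem pj_iter (a : ℂ) (n : ℕ) (s : ℂ) (x : PE n) (z : ℂ) (j : ℕ) :
    (fx a n (pj a n s x))^[j] (z + sh n s x) = (fx a n x)^[j] z + sh n s x := by
  induction j with
  | zero => rfl
  | succ j ih => rw [Function.iterate_succ_apply', Function.iterate_succ_apply', ih, pj_conj]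

theorem sh_diff (n : ℕ) (s : ℂ) : Differentiable ℂ (sh n s) := by
  unfold sh
  simp only [div_eq_mul_inv]
  apply Differentiable.mul_const
  apply Differentiable.const_sub
  apply Differentiable.fun_sum
  intro i _
  exact differentiable_apply (some i)

theorem pj_diff (a : ℂ) (n : ℕ) (s : ℂ) : Differentiable ℂ (pj a n s) := by
  rw [differentiable_pi]
  intro o
  cases o with
  | none =>
    have h1 := (contDiff_fam a n).differentiable (by norm_num)
    have h2 : Differentiable ℂ (fun x : PE n => ((x, -sh n s x) : PE n × ℂ)) :=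
      differentiable_id.prodMk (sh_diff n s).neg
    have h3 : Differentiable ℂ (fun x : PE n => fx a n x (-sh n s x)) := h1.comp h2
    exact h3.add (sh_diff n s)
  | some i =>
    exact (differentiable_apply (some i)).add (sh_diff n s)

/-- Neighbourhoods of the Shilov boundary contain hyperbolic polynomials of every type. -/
theorem sh_types {a : ℂ} (ha : a ≠ 0) {n : ℕ} (hn : 1 ≤ n) {s : ℂ} {x₀ : PE n}
    (hx₀ : x₀ ∈ Sh (MC a n s)) {ε : ℝ} (hε : 0 < ε) (k : ℕ) (τ : Fin n → Option (Fin k))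
    (hτ : ∀ j, ∃ i, τ i = some j) (N₀ : ℕ) :
    ∃ (x : PE n) (p : Fin k → ℕ) (z : Fin k → ℂ) (r : Fin k → Fin n),
      ‖x - x₀‖ < ε ∧ ∑ i : Fin n, x (some i) = s ∧ Concl a n k τ N₀ x p z r := by
  have hM := mc_compact ha hn s
  obtain ⟨Ω, F, xs, q, hΩ, hMΩ, hF, hxs, hFx, hF1, hq0, hq1, hFq⟩ := sh_peak hM hx₀ hε
  obtain ⟨B, hB, R₂, heng⟩ := eng ha hn (norm_nonneg s)
  obtain ⟨-, -, heng⟩ := heng R₂ le_rfl xs (by rw [hxs.1]) hxs.2
  obtain ⟨m, hm⟩ : ∃ m : ℕ, q ^ m < 1 / 2 := exists_pow_lt_of_lt_one (by norm_num) hq1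
  set h₀ : PE n → ℂ := fun x => 2 * (F x ^ m - 1) with hh₀
  have hh₀d : DifferentiableOn ℂ h₀ Ω := ((hF.pow m).sub_const 1).const_mul 2
  have hre : ∀ x : PE n, (h₀ x).re ≤ 2 * (‖F x‖ ^ m - 1) := by
    intro x
    have h1 : (h₀ x).re = 2 * ((F x ^ m).re - 1) := by
      simp [hh₀]
    rw [h1]
    have h2 := Complex.re_le_norm (F x ^ m)
    rw [norm_pow] at h2
    linarith
  have hreM : ∀ x ∈ MC a n s, (h₀ x).re ≤ 0 := by
    intro x hx
    have h1 : ‖F x‖ ^ m ≤ 1 := pow_le_one₀ (norm_nonneg _) (hF1 x hx)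
    linarith [hre x]
  have hreM' : ∀ x ∈ MC a n s, x ∉ ball x₀ ε → (h₀ x).re < -(1 / 2) := by
    intro x hx hx'
    have h1 : ‖F x‖ ^ m ≤ q ^ m := pow_le_pow_left₀ (norm_nonneg _) (hFq x hx hx') m
    linarith [hre x]
  -- the open set
  set Ω' : Set (PE n) := (Ω ∩ h₀ ⁻¹' {w : ℂ | w.re < 1}) ∩
    (ball x₀ ε ∪ (Ω ∩ h₀ ⁻¹' {w : ℂ | w.re < -(1 / 2)})) with hΩ'
  have hΩ'o : IsOpen Ω' := by
    apply IsOpen.inter
    · exact hh₀d.continuousOn.isOpen_inter_preimage hΩ
        (isOpen_lt Complex.continuous_re continuous_const)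
    · apply isOpen_ball.union
      exact hh₀d.continuousOn.isOpen_inter_preimage hΩ
        (isOpen_lt Complex.continuous_re continuous_const)
  have hMΩ' : MC a n s ⊆ Ω' := by
    intro x hx
    refine ⟨⟨hMΩ hx, ?_⟩, ?_⟩
    · show (h₀ x).re < 1
      linarith [hreM x hx]
    · by_cases hb : x ∈ ball x₀ ε
      · exact Or.inl hb
      · exact Or.inr ⟨hMΩ hx, hreM' x hx hb⟩
  -- bounds for the projection
  obtain ⟨B', hB'⟩ : ∃ B' : ℝ, ∀ x : PE n, ‖x‖ ≤ B → ‖pj a n s x‖ ≤ B' ∧ ‖sh n s x‖ ≤ B' := by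
    obtain ⟨B₁, h1⟩ := (isCompact_closedBall (0 : PE n) B).exists_bound_of_continuousOn
      (pj_diff a n s).continuous.continuousOn
    obtain ⟨B₂, h2⟩ := (isCompact_closedBall (0 : PE n) B).exists_bound_of_continuousOn
      (sh_diff n s).continuous.continuousOn
    refine ⟨max B₁ B₂, fun x hx => ?_⟩
    have hx' : x ∈ closedBall (0 : PE n) B := by simpa using hx
    exact ⟨(h1 x hx').trans (le_max_left _ _), (h2 x hx').trans (le_max_right _ _)⟩
  obtain ⟨N, hN⟩ := near_N hΩ'o hMΩ' B' (R₂ + B')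
  have hpO : ∀ x ∈ OmN a n N B R₂, pj a n s x ∈ Ω' := by
    intro x hx
    obtain ⟨hxB, hxo⟩ := hx
    have hxB' : ‖x‖ ≤ B := (mem_ball_zero_iff.1 hxB).le
    obtain ⟨e1, e2⟩ := hB' x hxB'
    refine hN _ (pj_sum hn s x) e1 fun i j hj1 hjN => ?_
    have h1 : pj a n s x (some i) = x (some i) + sh n s x := rfl
    rw [h1, pj_iter]
    refine (norm_add_le _ _).trans (add_le_add (hxo i j hj1 hjN).le e2)
  obtain ⟨x, p, z, r, hxO, hxs', hre', hconcl⟩ := heng N (fun x => h₀ (pj a n s x)) 1 (1 / 4)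
    (hh₀d.comp (pj_diff a n s).differentiableOn (fun x hx => (hpO x hx).1.1))
    (by
      show h₀ (pj a n s xs) = 0
      rw [pj_id hxs.1]
      simp [hh₀, hFx])
    zero_le_one (by norm_num) (fun x hx _ => (hpO x hx).1.2.le) k τ hτ N₀
  rw [hxs.1] at hxs'
  have h1 : pj a n s x = x := pj_id hxs'
  have h2 := hpO x hxO
  rw [h1] at h2
  have h3 : -(1 / 4 : ℝ) ≤ (h₀ x).re := by
    have h4 : -(1 / 4 : ℝ) ≤ (h₀ (pj a n s x)).re := hre'
    rwa [h1] at h4
  refine ⟨x, p, z, r, ?_, hxs', hconcl⟩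
  rcases h2.2 with h4 | h4
  · rwa [mem_ball, dist_eq_norm] at h4
  · exfalso
    have h5 : (h₀ x).re < -(1 / 2) := h4.2
    linarith

end Pool.Agent.K4H45.SB
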