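import Mathlib
import Pool.Agent.K4H45.SB.Conn

/-! # The Shilov boundary of the connectedness locus and hyperbolic polynomials -/

set_option autoImplicit false

open Topology Filter Metric Set Polynomial MeasureTheory
open Pool.Agent.H713R3.ZA Pool.Agent.W820.BM

namespace Pool.Agent.K4H45.SB

/-- The distance to the Shilov boundary is at most a constant times the square root of the area. -/
theorem sh_near {a : ℂ} (ha : a ≠ 0) {n : ℕ} (hn : 1 ≤ n) {c₀ : ℝ} (hc₀ : 0 ≤ c₀) :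
    ∃ C : ℝ, 0 < C ∧ ∀ s : ℂ, ‖s‖ ≤ c₀ → ∀ x ∈ MC a n s, volume (KJ (fam a n x)) < ⊤ ∧
      ∀ ε : ℝ, C * Real.sqrt (volume (KJ (fam a n x))).toReal < ε →
        ∃ y ∈ Sh (MC a n s), ∀ j : ℕ, ‖(fam a n y).coeff j - (fam a n x).coeff j‖ < ε := by
  obtain ⟨C, hC, h⟩ := peakQ ha hn hc₀
  refine ⟨C, hC, fun s hs x hx => ?_⟩
  obtain ⟨hvol, h⟩ := h x (by rw [hx.1]; exact hs) hx.2
  refine ⟨hvol, fun ε hε => ?_⟩
  obtain ⟨θ, hθ, hθε⟩ := exists_theta hC hε
  set V : ℝ := (volume (KJ (fam a n x))).toReal with hV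
  have hV0 : 0 ≤ V := ENNReal.toReal_nonneg
  obtain ⟨Ω, F, hΩ, hF, hFx, hFM⟩ := h (2 * θ) (by positivity)
  have hbd := sh_bd (mc_compact ha hn s) (mc_nonempty a hn s)
  have hsub : MC a n s ⊆ Ω := fun y hy => (hFM y (by rw [hy.1, hx.1]) hy.2).1
  obtain ⟨y, hy, hle⟩ := hbd.2.2 Ω (fun y => Complex.exp (F y)) hΩ hsub hF.cexp x hx
  refine ⟨y, hy, fun j => ?_⟩
  have hyM := hy.1
  rw [hFx, Complex.norm_exp, Complex.norm_exp, Real.exp_le_exp, Complex.zero_re] at hle
  have h1 := (hFM y (by rw [hyM.1, hx.1]) hyM.2).2 j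
  have h2 : (‖(fam a n y).coeff j - (fam a n x).coeff j‖ / C) ^ 2 ≤ V + 2 * θ := by linarith
  have h3 : ‖(fam a n y).coeff j - (fam a n x).coeff j‖ / C ≤ Real.sqrt (V + 2 * θ) :=
    Real.le_sqrt_of_sq_le h2
  rw [div_le_iff₀ hC, mul_comm] at h3
  exact h3.trans_lt hθε

/-- Marked polynomials with connected filled Julia set of zero area are in the Shilov boundary. -/
theorem sh_zero {a : ℂ} (ha : a ≠ 0) {n : ℕ} (hn : 1 ≤ n) {s : ℂ} {xT : PE n}
    (hxT : xT ∈ MC a n s) (hvol : volume (KJ (fam a n xT)) = 0) : xT ∈ Sh (MC a n s) := by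
  classical
  refine ⟨hxT, fun Γ hΓ => ?_⟩
  by_contra hcon
  obtain ⟨ε, hε, hball⟩ := Metric.isOpen_iff.1 hΓ.1.isOpen_compl xT hcon
  have hcrit := hxT.2
  obtain ⟨B, hB, R₂, heng⟩ := eng ha hn (c₀ := ‖s‖) (norm_nonneg _)
  obtain ⟨Rk, hpk⟩ := Pool.Agent.W177.BM.pk ext_holds a n B ha hn hB
  obtain ⟨C, hC, hpk⟩ := hpk (max Rk R₂) (le_max_left _ _)
  have hengM : ∀ x ∈ MC a n s, ‖x‖ < B ∧ ∀ i l, ‖(fx a n x)^[l] (x (some i))‖ < max Rk R₂ := by
    intro x hx
    obtain ⟨h1, h2, -⟩ := heng (max Rk R₂) (le_max_right _ _) x (by rw [hx.1]) hx.2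
    exact ⟨h1, h2⟩
  have hxB := (hengM xT hxT).1
  obtain ⟨-, hpk⟩ := hpk xT (mem_ball_zero_iff.mpr hxB) hcrit
  rw [hvol, ENNReal.toReal_zero] at hpk
  -- the gap
  set L : ℝ := n * ‖xT‖ with hL
  have hL0 : 0 ≤ L := by positivity
  obtain ⟨g, hg, hgap⟩ : ∃ g : ℝ, 0 < g ∧ ∀ σ : Equiv.Perm (Fin n), permP σ xT ≠ xT →
      (qf xT (permP σ xT)).re + g ≤ (qf xT xT).re := by
    by_cases hne : ∃ σ : Equiv.Perm (Fin n), permP σ xT ≠ xT
    · set F : Finset (Equiv.Perm (Fin n)) := Finset.univ.filter (fun σ => permP σ xT ≠ xT) with hF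
      have hFne : F.Nonempty := by
        obtain ⟨σ, hσ⟩ := hne
        exact ⟨σ, by simp [hF, hσ]⟩
      obtain ⟨σ₀, hσ₀, hmin⟩ := F.exists_min_image
        (fun σ => (qf xT xT).re - (qf xT (permP σ xT)).re) hFne
      refine ⟨(qf xT xT).re - (qf xT (permP σ₀ xT)).re, ?_, ?_⟩
      · have := qf_gap xT σ₀ (by simpa [hF] using hσ₀)
        linarith
      · intro σ hσ
        have := hmin σ (by simp [hF, hσ])
        linarith
    · exact ⟨1, one_pos, fun σ hσ => absurd ⟨σ, hσ⟩ hne⟩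
  obtain ⟨ε₂, hε₂, hε₂1, hε₂2⟩ : ∃ ε₂ : ℝ, 0 < ε₂ ∧ ε₂ ≤ ε ∧ L * ε₂ ≤ g / 2 := by
    refine ⟨min ε (g / (2 * (L + 1))), lt_min hε (by positivity), min_le_left _ _, ?_⟩
    calc L * min ε (g / (2 * (L + 1))) ≤ L * (g / (2 * (L + 1))) :=
          mul_le_mul_of_nonneg_left (min_le_right _ _) hL0
      _ = g / 2 * (L / (L + 1)) := by field_simp
      _ ≤ g / 2 * 1 := by
          apply mul_le_mul_of_nonneg_left _ (by positivity)
          rw [div_le_one (by positivity)]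
          linarith
      _ = g / 2 := mul_one _
  obtain ⟨ε₁, hε₁, hclose⟩ := close_perm ha xT B hε₂
  -- the parameters
  obtain ⟨δ, hδ, hδ1⟩ : ∃ δ : ℝ, 0 < δ ∧ C * Real.sqrt (δ * (2 + 2 * (L * B))) ≤ ε₁ := by
    refine ⟨(ε₁ / C) ^ 2 / (2 + 2 * (L * B)), by positivity, ?_⟩
    rw [div_mul_cancel₀ _ (by positivity), Real.sqrt_sq (by positivity), mul_div_cancel₀ _ hC.ne']
  obtain ⟨θ, hθ, hθ1, hθ2⟩ : ∃ θ : ℝ, 0 < θ ∧ θ ≤ δ ∧ θ ≤ δ * g / 8 :=
    ⟨min δ (δ * g / 8), lt_min hδ (by positivity), min_le_left _ _, min_le_right _ _⟩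
  obtain ⟨N, h, hOo, hxTO, hdh, h0, hh⟩ := hpk θ hθ
  simp only [zero_add] at hh
  have hqb : ∀ x : PE n, ‖x‖ ≤ B → |(qf xT x).re - (qf xT xT).re| ≤ 2 * (L * B) := by
    intro x hx
    rw [← Complex.sub_re]
    refine (Complex.abs_re_le_norm _).trans ((qf_lip xT x xT).trans ?_)
    have : ‖x - xT‖ ≤ 2 * B := (norm_sub_le _ _).trans (by linarith)
    calc n * ‖xT‖ * ‖x - xT‖ ≤ L * (2 * B) := mul_le_mul_of_nonneg_left this hL0
      _ = _ := by ring
  have hMO : MC a n s ⊆ OmN a n N B (max Rk R₂) := by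
    intro x hx
    obtain ⟨h1, h2⟩ := hengM x hx
    exact ⟨mem_ball_zero_iff.mpr h1, fun i j _ _ => h2 i j⟩
  obtain ⟨x, hxΓ, hle⟩ := hΓ.2.2 (OmN a n N B (max Rk R₂))
    (fun x => Complex.exp (h x + (δ : ℂ) * (qf xT x - qf xT xT))) hOo hMO
    (hdh.add ((((qf_differentiable xT).sub_const _).const_mul _).differentiableOn)).cexp xT hxT
  have hxM := hΓ.2.1 hxΓ
  have hxs : ∑ i : Fin n, x (some i) = ∑ i : Fin n, xT (some i) := by rw [hxM.1, hxT.1]
  have hxO := hMO hxM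
  have hxB' : ‖x‖ < B := mem_ball_zero_iff.mp hxO.1
  have hre' : 0 ≤ (h x).re + δ * ((qf xT x).re - (qf xT xT).re) := by
    rw [h0, sub_self, mul_zero, add_zero, Complex.norm_exp, Complex.norm_exp, Real.exp_le_exp,
      Complex.zero_re, Complex.add_re, Complex.re_ofReal_mul, Complex.sub_re] at hle
    exact hle
  obtain ⟨h1, h2⟩ := hh x hxO hxs
  have h3 : ∀ j : ℕ, ‖(fam a n x).coeff j - (fam a n xT).coeff j‖ ≤ ε₁ := by
    intro j
    refine (h2 j).trans (le_trans ?_ hδ1)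
    apply mul_le_mul_of_nonneg_left _ hC.le
    apply Real.sqrt_le_sqrt
    have h4 := (abs_le.mp (hqb x hxB'.le)).2
    have h5 := mul_le_mul_of_nonneg_left h4 hδ.le
    nlinarith
  obtain ⟨σ, hσ⟩ := hclose x hxB'.le h3
  have hσ1 : permP σ xT = xT := by
    by_contra hcon'
    have h4 := hgap σ hcon'
    have h5 : (qf xT x).re ≤ (qf xT (permP σ xT)).re + L * ‖x - permP σ xT‖ := by
      have h6 := (le_abs_self _).trans ((Complex.abs_re_le_norm _).trans (qf_lip xT x (permP σ xT)))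
      rw [Complex.sub_re] at h6
      linarith
    have h6 : L * ‖x - permP σ xT‖ ≤ g / 2 :=
      (mul_le_mul_of_nonneg_left hσ.le hL0).trans hε₂2
    have h7 : (qf xT x).re - (qf xT xT).re ≤ -(g / 2) := by linarith
    have h8 := mul_le_mul_of_nonneg_left h7 hδ.le
    have h9 : 0 < δ * g := by positivity
    nlinarith
  rw [hσ1] at hσ
  exact hball (by rw [mem_ball, dist_eq_norm]; exact hσ.trans_le hε₂1) hxΓ

/-- Near a polynomial without critical fixed points no fixed point is close to a critical point. -/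
theorem fx' (T : ℂ[X]) (hT : 2 ≤ T.natDegree)
    (hnf : ∀ z : ℂ, T.eval z = z → (derivative T).eval z ≠ 0) :
    ∃ ε : ℝ, 0 < ε ∧ ∀ S : ℂ[X],
      S.natDegree = T.natDegree → (∀ j : ℕ, ‖S.coeff j - T.coeff j‖ < ε) →
      ∀ z y : ℂ, S.eval z = z → (derivative S).eval y = 0 → ε ≤ ‖z - y‖ := by
  by_contra hcon
  push Not at hcon
  obtain ⟨ρ, ε0, hε0, hρ⟩ := W973.BM.fix_bound T hT
  set d := T.natDegree with hd
  have hεk : ∀ k : ℕ, 0 < min ε0 (1 / ((k : ℝ) + 1)) := fun k => lt_min hε0 (by positivity)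
  choose S hS1 hS2 z y hz hy hzy using fun k : ℕ => hcon (min ε0 (1 / ((k : ℝ) + 1))) (hεk k)
  have hzb : ∀ k, z k ∈ closedBall (0 : ℂ) ρ := by
    intro k
    rw [mem_closedBall_zero_iff]
    exact hρ (S k) (hS1 k) (fun j => lt_of_lt_of_le (hS2 k j) (min_le_left _ _)) (z k) (hz k)
  obtain ⟨z0, -, φ, hφ, hlim⟩ := (isCompact_closedBall (0 : ℂ) ρ).tendsto_subseq hzb
  have hlim' : Tendsto (fun k => z (φ k)) atTop (𝓝 z0) := hlim
  have h1k : Tendsto (fun k : ℕ => 1 / (((φ k : ℕ) : ℝ) + 1)) atTop (𝓝 0) :=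
    tendsto_one_div_add_atTop_nhds_zero_nat.comp hφ.tendsto_atTop
  have hylim : Tendsto (fun k => y (φ k)) atTop (𝓝 z0) := by
    have h2 : Tendsto (fun k => z (φ k) - y (φ k)) atTop (𝓝 0) := by
      rw [tendsto_zero_iff_norm_tendsto_zero]
      refine squeeze_zero (fun k => norm_nonneg _) (fun k => ?_) h1k
      exact (lt_of_lt_of_le (hzy (φ k)) (min_le_right _ _)).le
    have h3 := hlim'.sub h2
    simp only [sub_sub_cancel, sub_zero] at h3
    exact h3
  have hcoef : ∀ j, Tendsto (fun k => (S (φ k)).coeff j) atTop (𝓝 (T.coeff j)) := by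
    intro j
    rw [tendsto_iff_norm_sub_tendsto_zero]
    refine squeeze_zero (fun k => norm_nonneg _) (fun k => ?_) h1k
    exact (lt_of_lt_of_le (hS2 (φ k) j) (min_le_right _ _)).le
  have hfix : T.eval z0 = z0 := by
    have h4 : Tendsto (fun k => (S (φ k)).eval (z (φ k))) atTop (𝓝 (T.eval z0)) := by
      rw [W973.BM.eval_range T d le_rfl z0]
      have h5 : (fun k => (S (φ k)).eval (z (φ k))) =
          fun k => ∑ j ∈ Finset.range (d + 1), (S (φ k)).coeff j * (z (φ k)) ^ j := by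
        funext k
        exact W973.BM.eval_range _ d (hS1 (φ k)).le _
      rw [h5]
      exact tendsto_finsetSum _ fun j _ => (hcoef j).mul (hlim'.pow j)
    have h6 : (fun k => (S (φ k)).eval (z (φ k))) = fun k => z (φ k) := by
      funext k
      exact hz (φ k)
    rw [h6] at h4
    exact tendsto_nhds_unique h4 hlim'
  have hcrit : (derivative T).eval z0 = 0 := by
    have h4 : Tendsto (fun k => (derivative (S (φ k))).eval (y (φ k))) atTop
        (𝓝 ((derivative T).eval z0)) := by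
      rw [W973.BM.eval_range (derivative T) d ((natDegree_derivative_le T).trans
        (Nat.sub_le _ _)) z0]
      have h5 : (fun k => (derivative (S (φ k))).eval (y (φ k))) =
          fun k => ∑ j ∈ Finset.range (d + 1),
            (derivative (S (φ k))).coeff j * (y (φ k)) ^ j := by
        funext k
        refine W973.BM.eval_range _ d ((natDegree_derivative_le _).trans ?_) _
        rw [hS1 (φ k)]
        exact Nat.sub_le _ _
      rw [h5]
      refine tendsto_finsetSum _ fun j _ => Tendsto.mul ?_ (hylim.pow j)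
      simp only [coeff_derivative]
      exact (hcoef (j + 1)).mul_const _
    have h6 : (fun k => (derivative (S (φ k))).eval (y (φ k))) = fun _ => 0 := by
      funext k
      exact hy (φ k)
    rw [h6] at h4
    exact tendsto_nhds_unique h4 tendsto_const_nhds
  exact hnf z0 hfix hcrit

/-- The polynomials in the Shilov boundary have no critical fixed point. -/
theorem sh_nofix {a : ℂ} (ha : a ≠ 0) {n : ℕ} (hn : 1 ≤ n) {s : ℂ} {x₀ : PE n}
    (hx₀ : x₀ ∈ Sh (MC a n s)) (z : ℂ) (hz : (fam a n x₀).eval z = z) :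
    (derivative (fam a n x₀)).eval z ≠ 0 := by
  intro hz'
  have hd := (fam a n x₀).hasDerivAt z
  rw [hz', hasDerivAt_iff_isLittleO] at hd
  have h3 := hd.def (c := 1 / 2) (by norm_num)
  obtain ⟨δ, hδ, h4⟩ := Metric.eventually_nhds_iff_ball.1 h3
  have h5 : ∀ u ∈ closedBall z (δ / 2), ‖fx a n x₀ u - z‖ < δ / 2 := by
    intro u hu
    have h6 := h4 u (closedBall_subset_ball (by linarith) hu)
    simp only [smul_zero, sub_zero, hz] at h6
    rw [mem_closedBall, dist_eq_norm] at hu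
    have h7 : ‖fx a n x₀ u - z‖ ≤ 1 / 2 * ‖u - z‖ := h6
    linarith
  obtain ⟨U, W, hU, hW, hxU, hcW, hsub⟩ := generalized_tube_lemma
    (isCompact_singleton (x := x₀)) (isCompact_closedBall z (δ / 2))
    (n := {p : PE n × ℂ | ‖(fam a n p.1).eval p.2 - z‖ < δ / 2})
    (isOpen_lt (((contDiff_fam a n).continuous.sub continuous_const).norm) continuous_const)
    (by
      rintro ⟨x, u⟩ ⟨hx, hu⟩
      rw [mem_singleton_iff] at hx
      simp only at hx hu
      subst hx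
      exact h5 u hu)
  obtain ⟨i, hi⟩ : ∃ i : Fin n, z = x₀ (some i) := by
    rw [derivative_fam] at hz'
    unfold dfam at hz'
    rw [eval_mul, eval_C, eval_prod, mul_eq_zero] at hz'
    rcases hz' with h | h
    · exact absurd h (mul_ne_zero ha (Nat.cast_add_one_ne_zero n))
    · obtain ⟨i, -, hi⟩ := Finset.prod_eq_zero_iff.mp h
      rw [eval_sub, eval_X, eval_C, sub_eq_zero] at hi
      exact ⟨i, hi⟩
  obtain ⟨ε, hε, hεU⟩ := Metric.isOpen_iff.1 hU x₀ (hxU rfl)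
  obtain ⟨x, p, w, r, hx, -, hconcl⟩ := sh_types ha hn hx₀ (lt_min hε (half_pos hδ)) 0
    (fun _ => none) (fun j => j.elim0) 0
  have hxU' : x ∈ U := hεU (by
    rw [mem_ball, dist_eq_norm]; exact hx.trans_le (min_le_left _ _))
  have hmap : ∀ u ∈ closedBall z (δ / 2), fx a n x u ∈ closedBall z (δ / 2) := by
    intro u hu
    have h6 : (x, u) ∈ {p : PE n × ℂ | ‖(fam a n p.1).eval p.2 - z‖ < δ / 2} :=
      hsub ⟨hxU', hcW hu⟩
    rw [mem_closedBall, dist_eq_norm]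
    exact le_of_lt h6
  have hin : x (some i) ∈ closedBall z (δ / 2) := by
    rw [mem_closedBall, dist_eq_norm, hi]
    have h6 : ‖(x - x₀) (some i)‖ ≤ ‖x - x₀‖ := norm_le_pi_norm (x - x₀) (some i)
    exact h6.trans (hx.trans_le (min_le_right _ _)).le
  have horb : ∀ l : ℕ, (fx a n x)^[l] (x (some i)) ∈ closedBall z (δ / 2) := by
    intro l
    induction l with
    | zero => exact hin
    | succ l ih => rw [Function.iterate_succ_apply']; exact hmap _ ih
  have hesc := hconcl.esc i rfl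
  obtain ⟨l, hl⟩ := (hesc.eventually (eventually_gt_atTop (‖z‖ + δ / 2))).exists
  have h6 := horb l
  rw [mem_closedBall, dist_eq_norm] at h6
  have h7 := norm_le_norm_add_norm_sub' ((fx a n x)^[l] (x (some i))) z
  linarith

/-- Every type, with exact periods. -/
theorem sh_main {a : ℂ} (ha : a ≠ 0) {n : ℕ} (hn : 1 ≤ n) {s : ℂ} {x₀ : PE n}
    (hx₀ : x₀ ∈ Sh (MC a n s)) {ε : ℝ} (hε : 0 < ε) (k : ℕ) (τ : Fin n → Option (Fin k))
    (hτ : ∀ j, ∃ i, τ i = some j) (N₀ : ℕ) :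
    ∃ (x : PE n) (p : Fin k → ℕ) (z : Fin k → ℂ) (r : Fin k → Fin n),
      ‖x - x₀‖ < ε ∧ (∀ j : ℕ, ‖(fam a n x).coeff j - (fam a n x₀).coeff j‖ < ε) ∧
      ∑ i : Fin n, x (some i) = s ∧ Concl a n k τ N₀ x p z r ∧
      ∀ j, Function.minimalPeriod (fx a n x) (z j) = p j := by
  obtain ⟨ε', hε', hfx⟩ := fx' (fam a n x₀) (by rw [natDegree_fam ha]; omega) (sh_nofix ha hn hx₀)
  -- closeness of the coefficients
  have h1 : ∀ᶠ x : PE n in 𝓝 x₀, ∀ j ∈ Finset.range (n + 2),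
      ‖(fam a n x).coeff j - (fam a n x₀).coeff j‖ < min ε ε' := by
    rw [Filter.eventually_all_finset]
    intro j _
    have hc : Continuous (fun x : PE n => ‖(fam a n x).coeff j - (fam a n x₀).coeff j‖) :=
      ((pfe_fam a n j).continuous.sub continuous_const).norm
    have h0 : ‖(fam a n x₀).coeff j - (fam a n x₀).coeff j‖ < min ε ε' := by
      simpa using ⟨hε, hε'⟩
    exact (hc.tendsto x₀).eventually (Iio_mem_nhds h0)
  obtain ⟨σ, hσ, hball⟩ := Metric.mem_nhds_iff.mp h1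
  obtain ⟨N', hN'⟩ := exists_nat_gt (1 / ε')
  obtain ⟨x, p, z, r, hx1, hx2, hx3⟩ := sh_types ha hn hx₀ (lt_min hε hσ) k τ hτ (max N₀ N')
  have hco : ∀ j : ℕ, ‖(fam a n x).coeff j - (fam a n x₀).coeff j‖ < min ε ε' := by
    intro j
    by_cases hj : j < n + 2
    · exact hball (by rw [mem_ball, dist_eq_norm]; exact hx1.trans_le (min_le_right _ _)) j
        (Finset.mem_range.mpr hj)
    · rw [coeff_eq_zero_of_natDegree_lt (by have := natDegree_fam_le a n x; omega),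
        coeff_eq_zero_of_natDegree_lt (by have := natDegree_fam_le a n x₀; omega)]
      simpa using ⟨hε, hε'⟩
  have hnear : ∀ j, ‖z j - x (some (r j))‖ * ((N₀ : ℝ) + 1) < 1 := by
    intro j
    have h2 := hx3.near j
    have h3 : (N₀ : ℝ) ≤ ((max N₀ N' : ℕ) : ℝ) := by exact_mod_cast le_max_left N₀ N'
    exact lt_of_le_of_lt (mul_le_mul_of_nonneg_left (by linarith) (norm_nonneg _)) h2
  refine ⟨x, p, z, r, hx1.trans_le (min_le_left _ _), fun j => (hco j).trans_le (min_le_left _ _),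
    hx2, ⟨hx3.inj, fun j => ⟨(hx3.prime j).1, (le_max_left _ _).trans (hx3.prime j).2⟩, hx3.rep,
      hx3.fix, hx3.mul, hnear, hx3.esc, hx3.att⟩, fun j => ?_⟩
  apply minPer (hx3.prime j).1 (hx3.fix j)
  intro hz
  have h1 := hfx (fam a n x) (by rw [natDegree_fam ha, natDegree_fam ha])
    (fun j => (hco j).trans_le (min_le_right _ _)) (z j) (x (some (r j))) hz (by
      rw [derivative_fam]
      unfold dfam
      rw [eval_mul, eval_prod, Finset.prod_eq_zero (Finset.mem_univ (r j)), mul_zero]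
      simp)
  have h2 := hx3.near j
  have h3 : (N' : ℝ) ≤ ((max N₀ N' : ℕ) : ℝ) := by exact_mod_cast le_max_right N₀ N'
  have h4 : 1 < ε' * N' := by rwa [div_lt_iff₀ hε', mul_comm] at hN'
  have h5 : ε' * N' ≤ ‖z j - x (some (r j))‖ * (((max N₀ N' : ℕ) : ℝ) + 1) := by
    apply mul_le_mul h1 (by linarith) (Nat.cast_nonneg _) (norm_nonneg _)
  linarith

end Pool.Agent.K4H45.SB
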